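import Mathlib

/-!
# The ideal generated by the closure of the additive idempotents is smaller than `MAX`

Every member of an ultrafilter in the multiplicative ideal generated by `Γ` contains numbers
`x, y, x + y`.  The set of the factorials `n!` with `n ≥ 3` contains no such triple, but every
nonprincipal ultrafilter containing it is divisible by all positive integers.
-/

set_option autoImplicit false

namespace Pool.Agent.Results.MP_34bddf_lc.MaxNotIdeal

open Filter Set

/-- The extension of an operation on the positive integers to ultrafilters: `A ∈ F ⋆ G` iff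
`{n | {m | n ⋆ m ∈ A} ∈ G} ∈ F`. -/
def ext (op : ℕ+ → ℕ+ → ℕ+) (F G : Ultrafilter ℕ+) : Ultrafilter ℕ+ :=
  F.bind fun n => G.map fun m => op n m

theorem mem_ext {op : ℕ+ → ℕ+ → ℕ+} {F G : Ultrafilter ℕ+} {A : Set ℕ+} :
    A ∈ ext op F G ↔ {n | {m | op n m ∈ A} ∈ G} ∈ F := Iff.rfl

/-- The ultrafilters divisible by every positive integer. -/
def MAX : Set (Ultrafilter ℕ+) := {F | ∀ n : ℕ+, {m | n ∣ m} ∈ F}

/-- The closure of the set of additive idempotents, in the usual topology on the space of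
ultrafilters. -/
def Γ : Set (Ultrafilter ℕ+) := closure {F | ext (· + ·) F F = F}

/-- Two-sided multiplicative ideals. -/
def IsMulIdeal (J : Set (Ultrafilter ℕ+)) : Prop :=
  J.Nonempty ∧ ∀ F ∈ J, ∀ G, ext (· * ·) G F ∈ J ∧ ext (· * ·) F G ∈ J

/-- The multiplicative ideal generated by `Γ`: the smallest one containing it. -/
def idealGamma : Set (Ultrafilter ℕ+) := ⋂₀ {J | IsMulIdeal J ∧ Γ ⊆ J}

/-- The ultrafilters all whose members contain a triple `x, y, x + y`. -/
def J : Set (Ultrafilter ℕ+) := {F | ∀ A ∈ F, ∃ x y : ℕ+, x ∈ A ∧ y ∈ A ∧ x + y ∈ A}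

theorem idem_mem_J {F : Ultrafilter ℕ+} (h : ext (· + ·) F F = F) : F ∈ J := by
  intro A hA
  have h1 := hA
  rw [← h, mem_ext] at h1
  obtain ⟨x, hx1, hx2⟩ := F.nonempty_of_mem (inter_mem hA h1)
  obtain ⟨y, hy1, hy2⟩ := F.nonempty_of_mem (inter_mem hA hx2)
  exact ⟨x, y, hx1, hy1, hy2⟩

theorem Gamma_subset_J : Γ ⊆ J := by
  intro F hF A hA
  have hopen : IsOpen {u : Ultrafilter ℕ+ | A ∈ u} := ultrafilter_isOpen_basic A
  obtain ⟨G, hG1, hG2⟩ := mem_closure_iff.1 hF _ hopen hA
  exact idem_mem_J hG2 A hG1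

section
attribute [local instance] Ultrafilter.add Ultrafilter.addSemigroup

theorem exists_idem : ∃ F : Ultrafilter ℕ+, ext (· + ·) F F = F := by
  obtain ⟨U, hU, -⟩ := Hindman.exists_idempotent_ultrafilter_le_FS (M := ℕ+) (fun _ => 1)
  refine ⟨U, ?_⟩
  ext A
  have h1 := Ultrafilter.eventually_add U U (· ∈ A)
  rw [hU] at h1
  exact h1.symm

end

theorem isMulIdeal_J : IsMulIdeal J := by
  refine ⟨?_, ?_⟩
  · obtain ⟨F, hF⟩ := exists_idem
    exact ⟨F, idem_mem_J hF⟩
  · intro F hF G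
    constructor
    · intro A hA
      rw [mem_ext] at hA
      obtain ⟨n, hn⟩ := G.nonempty_of_mem hA
      obtain ⟨x, y, hx, hy, hxy⟩ := hF _ hn
      exact ⟨n * x, n * y, hx, hy, by rw [← mul_add]; exact hxy⟩
    · intro A hA
      rw [mem_ext] at hA
      obtain ⟨x, y, hx, hy, hxy⟩ := hF _ hA
      obtain ⟨m, ⟨hm1, hm2⟩, hm3⟩ := G.nonempty_of_mem (inter_mem (inter_mem hx hy) hxy)
      exact ⟨x * m, y * m, hm1, hm2, by rw [← add_mul]; exact hm3⟩

/-- The set of the factorials of the numbers at least three. -/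
def fac : Set ℕ+ := {m | ∃ n : ℕ, 3 ≤ n ∧ (m : ℕ) = n.factorial}

theorem fac_no_triple {x y : ℕ+} (hx : x ∈ fac) (hy : y ∈ fac) : x + y ∉ fac := by
  rintro ⟨n, -, hn⟩
  obtain ⟨a, ha, ha'⟩ := hx
  obtain ⟨b, hb, hb'⟩ := hy
  have key : ∀ a b n : ℕ, 3 ≤ b → a ≤ b → a.factorial + b.factorial ≠ n.factorial := by
    intro a b n hb hab h
    have h1 : a.factorial ≤ b.factorial := Nat.factorial_le hab
    have h2 : 0 < a.factorial := Nat.factorial_pos a
    have h3 : b < n := by
      by_contra hcon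
      have := Nat.factorial_le (not_lt.1 hcon)
      omega
    have h4 : (b + 1).factorial ≤ n.factorial := Nat.factorial_le h3
    rw [Nat.factorial_succ] at h4
    nlinarith
  rw [PNat.add_coe, ha', hb'] at hn
  rcases le_total a b with h | h
  · exact key a b n hb h hn
  · exact key b a n ha h (by rw [add_comm]; exact hn)

theorem exists_fac : ∃ F : Ultrafilter ℕ+, F ∈ MAX ∧ fac ∈ F := by
  let f : ℕ → ℕ+ := fun n => ⟨n.factorial, Nat.factorial_pos n⟩
  refine ⟨(hyperfilter ℕ).map f, ?_, ?_⟩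
  · intro n
    change {k : ℕ | n ∣ f k} ∈ (hyperfilter ℕ : Filter ℕ)
    have h1 : (Iio (n : ℕ))ᶜ ∈ (hyperfilter ℕ : Filter ℕ) :=
      Filter.hyperfilter_le_cofinite (by
        rw [Filter.mem_cofinite, compl_compl]
        exact finite_Iio _)
    refine mem_of_superset h1 ?_
    · intro k hk
      have hk' : (n : ℕ) ≤ k := by simpa using hk
      exact PNat.dvd_iff.2 (Nat.dvd_factorial n.pos hk')
  · change {k : ℕ | f k ∈ fac} ∈ (hyperfilter ℕ : Filter ℕ)
    have h1 : (Iio 3)ᶜ ∈ (hyperfilter ℕ : Filter ℕ) :=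
      Filter.hyperfilter_le_cofinite (by
        rw [Filter.mem_cofinite, compl_compl]
        exact finite_Iio _)
    refine mem_of_superset h1 ?_
    · intro k hk
      have hk' : 3 ≤ k := by simpa using hk
      exact ⟨k, hk', rfl⟩

/-- The set `MAX` is different from the multiplicative ideal generated by `Γ`: it has an element
outside this ideal. -/
theorem result : (∃ F ∈ MAX, F ∉ idealGamma) ∧ MAX ≠ idealGamma := by
  have h : ∃ F ∈ MAX, F ∉ idealGamma := by
    obtain ⟨F, hF, hfac⟩ := exists_fac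
    refine ⟨F, hF, fun hcon => ?_⟩
    have h1 : F ∈ J := mem_sInter.1 hcon J ⟨isMulIdeal_J, Gamma_subset_J⟩
    obtain ⟨x, y, hx, hy, hxy⟩ := h1 fac hfac
    exact fac_no_triple hx hy hxy
  refine ⟨h, ?_⟩
  obtain ⟨F, hF, hF'⟩ := h
  intro heq
  rw [heq] at hF
  exact hF' hF

end Pool.Agent.Results.MP_34bddf_lc.MaxNotIdeal
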